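import Pool.Agent.W528.HA.Stm

/-!
Project HA, part BD: bounded exponential sums have bounded exponents.
-/

set_option autoImplicit false

namespace Pool.Agent.W605.HA.BD

open Finset Polynomial Filter

theorem main : Pool.Agent.W528.HA.BD := by
  classical
  intro C _ _ S m ρ hρ hS hsum a0 ha0
  by_contra hlt
  push Not at hlt
  obtain ⟨P, hP⟩ : ∃ P : C[X], P = ∏ b ∈ S.erase a0, (X - Polynomial.C b) := ⟨_, rfl⟩
  have hPz : ∀ a ∈ S, a ≠ a0 → P.eval a = 0 := by
    intro a ha hne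
    rw [hP, eval_prod]
    apply Finset.prod_eq_zero (Finset.mem_erase.2 ⟨hne, ha⟩)
    simp
  have hP0 : P.eval a0 ≠ 0 := by
    rw [hP, eval_prod, Finset.prod_ne_zero_iff]
    intro b hb
    rw [Finset.mem_erase] at hb
    simp only [eval_sub, eval_X, eval_C]
    exact sub_ne_zero.2 (Ne.symm hb.1)
  have hid : ∀ n : ℕ, ∑ j ∈ range (P.natDegree + 1), P.coeff j * (∑ a ∈ S, (m a : C) * a ^ (n + j)) =
      (m a0 : C) * P.eval a0 * a0 ^ n := by
    intro n
    have h1 : ∑ j ∈ range (P.natDegree + 1), P.coeff j * (∑ a ∈ S, (m a : C) * a ^ (n + j)) =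
        ∑ a ∈ S, (m a : C) * a ^ n * P.eval a := by
      simp_rw [Finset.mul_sum]
      rw [Finset.sum_comm]
      apply Finset.sum_congr rfl
      intro a _
      rw [eval_eq_sum_range, Finset.mul_sum]
      apply Finset.sum_congr rfl
      intro j _
      ring
    rw [h1, Finset.sum_eq_single_of_mem a0 ha0]
    · ring
    · intro b hb hne
      rw [hPz b hb hne, mul_zero]
  obtain ⟨K, hK⟩ : ∃ K : ℝ, K = ∑ j ∈ range (P.natDegree + 1), ‖P.coeff j‖ * ρ ^ j := ⟨_, rfl⟩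
  have hbound : ∀ n : ℕ, 1 ≤ n → ‖(m a0 : C) * P.eval a0‖ * ‖a0‖ ^ n ≤ K * ρ ^ n := by
    intro n hn
    rw [← norm_pow, ← norm_mul, ← hid n, hK, Finset.sum_mul]
    refine (norm_sum_le _ _).trans ?_
    apply Finset.sum_le_sum
    intro j _
    rw [norm_mul]
    calc ‖P.coeff j‖ * ‖∑ a ∈ S, (m a : C) * a ^ (n + j)‖ ≤ ‖P.coeff j‖ * ρ ^ (n + j) :=
          mul_le_mul_of_nonneg_left (hsum (n + j) (by omega)) (norm_nonneg _)
      _ = ‖P.coeff j‖ * ρ ^ j * ρ ^ n := by ring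
  have hc : 0 < ‖(m a0 : C) * P.eval a0‖ := by
    rw [norm_pos_iff]
    exact mul_ne_zero (by exact_mod_cast (hS a0 ha0).2.ne') hP0
  have ha0n : 0 < ‖a0‖ := norm_pos_iff.2 (hS a0 ha0).1
  rcases hρ.eq_or_lt with h0 | h0
  · have h1 := hbound 1 le_rfl
    rw [← h0] at h1
    have h2 : 0 < ‖(m a0 : C) * P.eval a0‖ * ‖a0‖ ^ 1 := by positivity
    simp only [pow_one, mul_zero] at h1 h2
    linarith
  · have hr : 1 < ‖a0‖ / ρ := by rw [lt_div_iff₀ h0]; linarith
    have ht := tendsto_pow_atTop_atTop_of_one_lt hr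
    obtain ⟨n, hn1, hn2⟩ := ((ht.eventually_gt_atTop (K / ‖(m a0 : C) * P.eval a0‖)).and
      (eventually_ge_atTop 1)).exists
    have h1 := hbound n hn2
    rw [div_lt_iff₀ hc, div_pow, div_mul_eq_mul_div, lt_div_iff₀ (by positivity)] at hn1
    linarith

end Pool.Agent.W605.HA.BD
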